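import Pool.Agent.Run7.h784.JP.Stm
import Pool.Agent.Run7.h957.PL.S1

/-! Piece JS1 of project JPL (helper784): one step of the Markov chain for the curve `i`. -/

set_option autoImplicit false
set_option linter.all false

open Polynomial IsDedekindDomain
open scoped Classical

namespace Run7.h957.JP

open Pool.Agent.N874.PP (Ov Ev Sq1)
open Pool.Agent.N352.PJ (IsGen Crd LocIm SelZero Fam GoodR Ht dsc)
open Run7.h875.TS (chi cd IsPC GSq irrD dg NRs uT sqf prD sqL sz Tr)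
open Run7.h784.TG Run7.h286.PL Run7.h784.JP Run7.h957.PL

section bas

variable {k : Type} [Field k] {ι : Type} [Fintype ι]

theorem full_of {f : ι → k[X][X]} (h : JFull f) (i : ι) : Full (f i) := by
  intro k' _ _ _ _ K' W _ _ _ _ _ _ σ
  obtain ⟨τ, hτ⟩ := h k' K' W (fun j => if e : i = j then e ▸ σ else 1)
  refine ⟨τ, fun x => ?_⟩
  have := hτ i x
  simpa using this

theorem dsc_dvd (g : ι → ℕ) (f : ι → k[X][X]) (i : ι) : dsc (g i) (f i) ∣ dB g f :=
  Finset.dvd_prod_of_mem _ (Finset.mem_univ i)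

theorem goodJ {g : ι → ℕ} {f : ι → k[X][X]} {nrs : k[X] → k[X]} (hn : NRs nrs)
    {S : Finset k[X]} (hS : ∀ P ∈ S, P.Monic ∧ Irreducible P ∧ ¬ P ∣ dB g f) (T : Finset k[X])
    (i : ι) : GoodT (g i) (f i) S (uT nrs T) :=
  goodT_uT hn (fun P hP => ⟨(hS P hP).1, (hS P hP).2.1,
    fun h => (hS P hP).2.2 (h.trans (dsc_dvd g f i))⟩) T

end bas

/-- The number of the primes of type two at which the whole group is trivial. -/
theorem count_trivJ (hKILL : P_JKILL2) (hSTEP : P_STEP) (hREP : P_REP) (hGRP : P_GRP)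
    (k : Type) [Field k] [Finite k] (ι : Type) [Fintype ι] (g N : ι → ℕ)
    (r : ι → k[X]) (f : ι → k[X][X]) (hF : JF g N r f) (hFull : JFull f)
    (K : Type) [Field K] [Algebra k[X] K] [IsFractionRing k[X] K] (L O : ι → Type)
    [∀ i, Field (L i)] [∀ i, Algebra K (L i)] [∀ i, Algebra k[X] (L i)]
    [∀ i, IsScalarTower k[X] K (L i)] [∀ i, CommRing (O i)] [∀ i, IsDedekindDomain (O i)]
    [∀ i, Algebra (O i) (L i)] [∀ i, IsFractionRing (O i) (L i)] [∀ i, Algebra k[X] (O i)]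
    [∀ i, IsScalarTower k[X] (O i) (L i)] [∀ i, IsIntegralClosure (O i) k[X] (L i)]
    (θ : ∀ i, L i) (hg : ∀ i, IsGen (g i) K (f i) (θ i)) (i : ι) :
    ∃ C : ℕ, ∀ (S : Finset k[X]) (u : k[X] → k[X]), GoodT (g i) (f i) S u → ∀ m : ℕ, 0 < m →
      |(((irrD k m).filter fun Q => (¬ Q ∣ dB g f ∧ nr (O i) Q = 2 ∧
          ∀ j, j ≠ i → nr (O j) Q = 1) ∧ Q ∉ S).card : ℝ) -
        dl1 g i * (Nat.card k : ℝ) ^ m / m| ≤ C * (1 + dg S) * √((Nat.card k : ℝ) ^ m) ∧
      |(((irrD k m).filter fun Q => ((¬ Q ∣ dB g f ∧ nr (O i) Q = 2 ∧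
          ∀ j, j ≠ i → nr (O j) Q = 1) ∧ Q ∉ S) ∧
          ∀ α ∈ SelG (O i) K (f i) (θ i) S u, Tr (O i) Q (α : L i)).card : ℝ) -
        dl1 g i * (Nat.card k : ℝ) ^ m / m * (1 / (sz (SelG (O i) K (f i) (θ i) S u) : ℝ))| ≤
          C * (1 + dg S) * √((Nat.card k : ℝ) ^ m) := by
  obtain ⟨C₀, hC₀⟩ := hKILL k ι g N r f hF hFull
  obtain ⟨⟨C₁, hC₁⟩, hfin⟩ := hREP k K (L i) (O i) (g i) (N i) (r i) (f i) (θ i) (hF.fm i) (hg i)
  refine ⟨3 * (C₀ * (1 + C₁) + 1), ?_⟩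
  intro S u hu m hm
  set B : ℝ := √((Nat.card k : ℝ) ^ m) with hB
  set M : ℝ := dl1 g i * (Nat.card k : ℝ) ^ m / m with hM
  have hq : (1 : ℝ) ≤ Nat.card k := by
    have : 1 < Nat.card k := Finite.one_lt_card
    exact_mod_cast this.le
  have hB1 : 1 ≤ B := by
    rw [hB, Real.one_le_sqrt]
    exact one_le_pow₀ hq
  have hdg : (0 : ℝ) ≤ dg S := by positivity
  set E : ℝ := (C₀ * (1 + C₁) + 1) * (1 + dg S) * B with hE
  have hE0 : 0 ≤ E := by positivity
  have hCE : ((3 * (C₀ * (1 + C₁) + 1) : ℕ) : ℝ) * (1 + dg S) * B = 3 * E := by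
    rw [hE]; push_cast; ring
  rw [hCE]
  obtain ⟨hK1, hK2⟩ := hC₀ K L O θ hg i
  set 𝒬 := (irrD k m).filter fun Q => (¬ Q ∣ dB g f ∧ nr (O i) Q = 2 ∧
    ∀ j, j ≠ i → nr (O j) Q = 1) ∧ Q ∉ S with h𝒬
  have hdgB : (dg S : ℝ) ≤ (1 + dg S) * B := by nlinarith
  -- the number of all
  have hcount : |(𝒬.card : ℝ) - M| ≤ E := by
    have h1 := hK1 m hm
    have h2 := card_remove hm S ((irrD k m).filter fun Q => ¬ Q ∣ dB g f ∧ nr (O i) Q = 2 ∧
      ∀ j, j ≠ i → nr (O j) Q = 1) (Finset.filter_subset _ _)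
    rw [Finset.filter_filter] at h2
    have h3 : |(𝒬.card : ℝ) - M| ≤ dg S + C₀ * B := by
      calc |(𝒬.card : ℝ) - M| ≤ |(𝒬.card : ℝ) -
            ((irrD k m).filter fun Q => ¬ Q ∣ dB g f ∧ nr (O i) Q = 2 ∧
              ∀ j, j ≠ i → nr (O j) Q = 1).card| +
            |(((irrD k m).filter fun Q => ¬ Q ∣ dB g f ∧ nr (O i) Q = 2 ∧
              ∀ j, j ≠ i → nr (O j) Q = 1).card : ℝ) - M| :=
              abs_sub_le _ _ _
        _ ≤ dg S + C₀ * B := add_le_add h2 h1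
    refine h3.trans ?_
    rw [hE]
    have h4 : (C₀ : ℝ) * B ≤ (C₀ * (1 + C₁)) * (1 + dg S) * B := by
      refine mul_le_mul_of_nonneg_right ?_ (by positivity)
      have a1 : (C₀ : ℝ) ≤ C₀ * (1 + C₁) := le_mul_of_one_le_right (by positivity) (by
        have : (0 : ℝ) ≤ C₁ := by positivity
        linarith)
      exact a1.trans (le_mul_of_one_le_right (by positivity) (by linarith))
    linarith [h4, hdgB]
  refine ⟨hcount.trans (by linarith), ?_⟩
  -- the group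
  set G := SelG (O i) K (f i) (θ i) S u with hG
  obtain ⟨hGm, hGs⟩ := (hGRP k K (L i) (O i) (g i) (N i) (r i) (f i) (θ i) (hF.fm i) (hg i)).2 S u hu
  have hsz : sz G ≠ 0 := hfin S u hu hGm
  have := fin_cl hsz
  letI : Fintype (Cl G) := Fintype.ofFinite _
  set s : ℝ := (sz G : ℝ) with hs
  have hs0 : 0 < s := by
    rw [hs]; exact_mod_cast Nat.pos_of_ne_zero hsz
  have hcard : (Fintype.card (Cl G) : ℝ) = s := by
    rw [hs, ← card_cl, Nat.card_eq_fintype_card]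
  set 𝒜 := (irrD k m).filter fun Q => ((¬ Q ∣ dB g f ∧ nr (O i) Q = 2 ∧
    ∀ j, j ≠ i → nr (O j) Q = 1) ∧ Q ∉ S) ∧
          ∀ α ∈ G, Tr (O i) Q (α : L i) with h𝒜
  have h𝒜𝒬 : 𝒜 = 𝒬.filter fun Q => ∀ α ∈ G, Tr (O i) Q (α : L i) := by
    rw [h𝒜, h𝒬, Finset.filter_filter]
  -- the double sum
  set χ : k[X] → Cl G → ℝ := fun Q c => if Tr (O i) Q ((rp c : (L i)ˣ) : L i) then (1 : ℝ) else -1
    with hχ
  have hrow : ∀ Q ∈ 𝒬, ∑ c, χ Q c = if (∀ α ∈ G, Tr (O i) Q (α : L i)) then s else 0 := by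
    intro Q hQ
    rw [h𝒬, Finset.mem_filter, mem_irrD] at hQ
    obtain ⟨⟨hQm, hQi, -⟩, ⟨hQd, hQn, -⟩, hQS⟩ := hQ
    have hQd' : ¬ Q ∣ dsc (g i) (f i) := fun h => hQd (h.trans (dsc_dvd g f i))
    obtain ⟨-, T, hT, hTs, -, -, hS1, -⟩ := hSTEP k K (L i) (O i) (g i) (N i) (r i) (f i) (θ i)
      (hF.fm i) (hg i) S u hu hsz Q hQm hQi hQS
      hQd' 1 (fun h => hQi.not_isUnit (isUnit_of_dvd_one h))
    rw [hQn] at hS1
    have h1 := char_sum hGs hTs hsz (by simpa using hS1)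
    have e1 : ∀ c : Cl G, χ Q c = if rp c ∈ T then (1 : ℝ) else -1 := by
      intro c
      simp only [hχ, hT]
    rw [Finset.sum_congr rfl fun c _ => e1 c, h1]
    have e2 : G ≤ T ↔ ∀ α ∈ G, Tr (O i) Q (α : L i) :=
      ⟨fun h α hα => (hT α).1 (h hα), fun h α hα => (hT α).2 (h α hα)⟩
    by_cases hall : ∀ α ∈ G, Tr (O i) Q (α : L i)
    · rw [if_pos (e2.2 hall), if_pos hall]
    · rw [if_neg (fun h => hall (e2.1 h)), if_neg hall]
  have htot1 : ∑ Q ∈ 𝒬, ∑ c, χ Q c = s * 𝒜.card := by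
    rw [Finset.sum_congr rfl hrow, ← Finset.sum_filter, ← h𝒜𝒬, Finset.sum_const, nsmul_eq_mul,
      mul_comm]
  have hcol : ∀ c : Cl G, |∑ Q ∈ 𝒬, χ Q c - (if c = 1 then M else 0)| ≤ 3 * E := by
    intro c
    have hsum : ∑ Q ∈ 𝒬, χ Q c = 𝒬.card - 2 * ((𝒬.filter fun Q => ¬ Tr (O i) Q
        ((rp c : (L i)ˣ) : L i)).card : ℝ) := by
      have h1 := Finset.card_filter_add_card_filter_not (s := 𝒬)
        (fun Q => Tr (O i) Q ((rp c : (L i)ˣ) : L i))
      have h2 : (((𝒬.filter fun Q => Tr (O i) Q ((rp c : (L i)ˣ) : L i)).card : ℕ) : ℝ) +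
        ((𝒬.filter fun Q => ¬ Tr (O i) Q ((rp c : (L i)ˣ) : L i)).card : ℕ) = 𝒬.card := by
          exact_mod_cast h1
      have h3 : ∑ Q ∈ 𝒬, χ Q c =
          ((𝒬.filter fun Q => Tr (O i) Q ((rp c : (L i)ˣ) : L i)).card : ℝ) -
          ((𝒬.filter fun Q => ¬ Tr (O i) Q ((rp c : (L i)ˣ) : L i)).card : ℝ) := by
        simp only [hχ]
        rw [Finset.sum_ite, Finset.sum_const, Finset.sum_const, nsmul_eq_mul, nsmul_eq_mul]
        ring
      rw [h3]; linarith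
    have hsel := (hGm (rp c)).1 (rp_mem c)
    split_ifs with hi
    · -- squares are trivial
      have hsq := mem_sqL.1 ((rp_sq c).2 hi)
      have hemp : (𝒬.filter fun Q => ¬ Tr (O i) Q ((rp c : (L i)ˣ) : L i)) = ∅ := by
        rw [Finset.filter_eq_empty_iff]
        intro Q _ hn
        apply hn
        obtain ⟨y, hy⟩ := hsq
        have hy0 : y ≠ 0 := by
          rintro rfl
          exact hsel.ne (by simpa using hy)
        intro 𝔓 _
        rw [hy, ← sq]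
        exact Pool.Agent.N539.PP.sq1_sq _ hy0
      rw [hsum, hemp, Finset.card_empty, Nat.cast_zero, mul_zero, sub_zero]
      linarith
    · have hnsq : ¬ IsSquare ((rp c : (L i)ˣ) : L i) :=
        fun h => hi ((rp_sq c).1 (mem_sqL.2 h))
      obtain ⟨ρ, z, hρ, hz, hdeg⟩ := hC₁ S u hu _ hsel
      have h0 : ((rp c : (L i)ˣ) : L i) * ρ ^ 2 ≠ 0 := mul_ne_zero hsel.ne (pow_ne_zero _ hρ)
      have h1 : IsSquare (Algebra.norm K (((rp c : (L i)ˣ) : L i) * ρ ^ 2)) := by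
        rw [map_mul, map_pow]
        exact hsel.nsq.mul ⟨Algebra.norm K ρ, sq _⟩
      have h2 : ¬ IsSquare (((rp c : (L i)ˣ) : L i) * ρ ^ 2) := by
        rintro ⟨y, hy⟩
        apply hnsq
        refine ⟨y / ρ, ?_⟩
        field_simp
        rw [hy, sq]
      have h3 := hK2 _ z (C₁ * (1 + dg S)) h0 h1 h2 hz hdeg m hm
      simp only [tr_mul_sq hρ] at h3
      have h4 := card_remove hm S ((irrD k m).filter fun Q => ¬ Q ∣ dB g f ∧ nr (O i) Q = 2 ∧
        (∀ j, j ≠ i → nr (O j) Q = 1) ∧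
        ¬ Tr (O i) Q ((rp c : (L i)ˣ) : L i)) (Finset.filter_subset _ _)
      have e1 : (((irrD k m).filter fun Q => ¬ Q ∣ dB g f ∧ nr (O i) Q = 2 ∧
          (∀ j, j ≠ i → nr (O j) Q = 1) ∧
          ¬ Tr (O i) Q ((rp c : (L i)ˣ) : L i)).filter fun Q => Q ∉ S) =
          𝒬.filter fun Q => ¬ Tr (O i) Q ((rp c : (L i)ˣ) : L i) := by
        rw [h𝒬, Finset.filter_filter, Finset.filter_filter]
        congr 1
        ext Q
        tauto
      rw [e1] at h4
      have h5 : |((𝒬.filter fun Q => ¬ Tr (O i) Q ((rp c : (L i)ˣ) : L i)).card : ℝ) - M / 2| ≤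
          E := by
        have hM2 : M / 2 = dl1 g i / 2 * (Nat.card k : ℝ) ^ m / m := by rw [hM]; ring
        rw [hM2]
        have h6 : |((𝒬.filter fun Q => ¬ Tr (O i) Q ((rp c : (L i)ˣ) : L i)).card : ℝ) -
            dl1 g i / 2 * (Nat.card k : ℝ) ^ m / m| ≤ dg S +
            C₀ * (1 + ((C₁ * (1 + dg S) : ℕ) : ℝ)) * B := by
          refine (abs_sub_le _ _ _).trans (add_le_add h4 h3)
        refine h6.trans ?_
        push_cast
        rw [hE]
        have h7 : (C₀ : ℝ) * (1 + C₁ * (1 + dg S)) * B ≤ (C₀ * (1 + C₁)) * (1 + dg S) * B := by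
          refine mul_le_mul_of_nonneg_right ?_ (by positivity)
          rw [mul_assoc]
          refine mul_le_mul_of_nonneg_left ?_ (by positivity)
          nlinarith [hdg]
        linarith [h7, hdgB]
      rw [hsum, sub_zero]
      rw [abs_le] at h5 hcount ⊢
      constructor
      · linarith [h5.1, h5.2, hcount.1, hcount.2]
      · linarith [h5.1, h5.2, hcount.1, hcount.2]
  have htot2 : |s * 𝒜.card - M| ≤ s * (3 * E) := by
    have h1 : ∑ c : Cl G, (if c = 1 then M else 0) = M := by simp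
    have h2 : s * 𝒜.card - M = ∑ c : Cl G, (∑ Q ∈ 𝒬, χ Q c - (if c = 1 then M else 0)) := by
      rw [Finset.sum_sub_distrib, h1, ← htot1, Finset.sum_comm]
    rw [h2]
    refine (Finset.abs_sum_le_sum_abs _ _).trans ?_
    refine (Finset.sum_le_sum fun c _ => hcol c).trans ?_
    rw [Finset.sum_const, nsmul_eq_mul, Finset.card_univ, hcard]
  have h8 : (𝒜.card : ℝ) - M * (1 / s) = (s * 𝒜.card - M) / s := by
    field_simp
  rw [h8, abs_div, abs_of_pos hs0, div_le_iff₀ hs0]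
  linarith

/-! ### One step -/

section av

variable {k : Type} [Field k] [Finite k] {ι : Type} [Fintype ι] {K : Type} [Field K]
  [Algebra k[X] K] [IsFractionRing k[X] K] {L O : ι → Type}
  [∀ i, Field (L i)] [∀ i, Algebra K (L i)] [∀ i, Algebra k[X] (L i)]
  [∀ i, IsScalarTower k[X] K (L i)] [∀ i, CommRing (O i)] [∀ i, IsDedekindDomain (O i)]
  [∀ i, Algebra (O i) (L i)] [∀ i, IsFractionRing (O i) (L i)] [∀ i, Algebra k[X] (O i)]
  [∀ i, IsScalarTower k[X] (O i) (L i)] [∀ i, IsIntegralClosure (O i) k[X] (L i)]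
  {g N : ι → ℕ} {r : ι → k[X]} {f : ι → k[X][X]} {θ : ∀ i, L i}

theorem avJ_insert (nrs : k[X] → k[X]) (φ : (ι → ℕ) → ℝ) {S : Finset k[X]} {Q : k[X]}
    (hQS : Q ∉ S) :
    avJ O K f θ nrs φ (insert Q S) = (1 / 2 : ℝ) ^ S.card * ∑ T ∈ S.powerset,
      (φ (fun i => ld (SelG (O i) K (f i) (θ i) (insert Q S) (Function.update (uT nrs T) Q 1))) +
        φ (fun i => ld (SelG (O i) K (f i) (θ i) (insert Q S)
          (Function.update (uT nrs T) Q (nrs Q))))) / 2 := by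
  unfold avJ
  rw [Finset.sum_powerset_insert hQS, Finset.card_insert_of_notMem hQS, pow_succ, mul_assoc,
    ← Finset.sum_add_distrib, Finset.mul_sum]
  congr 1
  refine Finset.sum_congr rfl fun T hT => ?_
  have hQT : Q ∉ T := fun h => hQS (Finset.mem_powerset.1 hT h)
  obtain ⟨h1, h2⟩ := uT_insert nrs hQT
  rw [h2, ← h1]
  ring

theorem avJ_insert_one (hEXS : P_EXS) (hF : JF g N r f) (hFull : JFull f)
    (hg : ∀ i, IsGen (g i) K (f i) (θ i))
    {nrs : k[X] → k[X]} (hn : NRs nrs) (φ : (ι → ℕ) → ℝ) {S : Finset k[X]}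
    (hS : ∀ P ∈ S, P.Monic ∧ Irreducible P ∧ ¬ P ∣ dB g f) {Q : k[X]} (hQm : Q.Monic)
    (hQi : Irreducible Q) (hQS : Q ∉ S) (hQd : ¬ Q ∣ dB g f) (hQn : ∀ j, nr (O j) Q = 1) :
    avJ O K f θ nrs φ (insert Q S) = avJ O K f θ nrs φ S := by
  rw [avJ_insert nrs φ hQS, avJ]
  congr 1
  refine Finset.sum_congr rfl fun T hT => ?_
  have key : ∀ w : k[X], ¬ Q ∣ w →
      (fun i => ld (SelG (O i) K (f i) (θ i) (insert Q S) (Function.update (uT nrs T) Q w))) =
      fun i => ld (SelG (O i) K (f i) (θ i) S (uT nrs T)) := by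
    intro w hw
    funext i
    rw [(hEXS k K (L i) (O i) (g i) (N i) (r i) (f i) (θ i) (hF.fm i) (full_of hFull i) (hg i) S _
      (goodJ hn hS T i) Q hQm hQi hQS (fun h => hQd (h.trans (dsc_dvd g f i))) w hw).1 (hQn i)]
  rw [key 1 (fun h => hQi.not_isUnit (isUnit_of_dvd_one h)), key (nrs Q) (nrs_ndvd hn hQi)]
  ring

end av

theorem dl_eq {ι : Type} [Fintype ι] (g : ι → ℕ) (i : ι) :
    dl0 g = del0 (g i) * ∏ j ∈ (Finset.univ : Finset ι).erase i, del0 (g j) := by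
  unfold dl0
  exact (Finset.mul_prod_erase _ (fun j => del0 (g j)) (Finset.mem_univ i)).symm

theorem stepJ (hKILL : P_JKILL2) (hLAST : P_JLAST2) (hEXS : P_EXS) (hPOW : P_POW) (hSTEP : P_STEP)
    (hREP : P_REP) (hGRP : P_GRP)
    (k : Type) [Field k] [Finite k] (ι : Type) [Fintype ι] (g N : ι → ℕ)
    (r : ι → k[X]) (f : ι → k[X][X]) (hF : JF g N r f) (hFull : JFull f)
    (K : Type) [Field K] [Algebra k[X] K] [IsFractionRing k[X] K] (L O : ι → Type)
    [∀ i, Field (L i)] [∀ i, Algebra K (L i)] [∀ i, Algebra k[X] (L i)]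
    [∀ i, IsScalarTower k[X] K (L i)] [∀ i, CommRing (O i)] [∀ i, IsDedekindDomain (O i)]
    [∀ i, Algebra (O i) (L i)] [∀ i, IsFractionRing (O i) (L i)] [∀ i, Algebra k[X] (O i)]
    [∀ i, IsScalarTower k[X] (O i) (L i)] [∀ i, IsIntegralClosure (O i) k[X] (L i)]
    (θ : ∀ i, L i) (hg : ∀ i, IsGen (g i) K (f i) (θ i)) (nrs : k[X] → k[X]) (hn : NRs nrs)
    (i : ι) : ∃ C₀ : ℕ, ∀ (φ : (ι → ℕ) → ℝ), (∀ d, |φ d| ≤ 1) → ∀ S : Finset k[X],
    (∀ P ∈ S, P.Monic ∧ Irreducible P ∧ ¬ P ∣ dB g f) → ∀ m : ℕ, 0 < m →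
    |∑ Q ∈ (irrD k m).filter (fun Q => typ O i Q ∧ Q ∉ S ∧ ¬ Q ∣ dB g f),
        avJ O K f θ nrs φ (insert Q S) -
      (dl0 g + dl1 g i) * (Nat.card k : ℝ) ^ m / m *
        avJ O K f θ nrs (MzJ (del1 (g i) / (del0 (g i) + del1 (g i))) i φ) S| ≤
      C₀ * (1 + dg S) * √((Nat.card k : ℝ) ^ m) := by
  obtain ⟨C, hC⟩ := count_trivJ hKILL hSTEP hREP hGRP k ι g N r f hF hFull K L O θ hg i
  obtain ⟨C₂, hC₂⟩ := hLAST k ι g N r f hF hFull
  refine ⟨C₂ + 1 + 3 * C, ?_⟩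
  intro φ hφ S hS m hm
  set B : ℝ := √((Nat.card k : ℝ) ^ m) with hB
  set P : ℝ := (Nat.card k : ℝ) ^ m / m with hP
  have hq : (1 : ℝ) ≤ Nat.card k := by
    have : 1 < Nat.card k := Finite.one_lt_card
    exact_mod_cast this.le
  have hB1 : 1 ≤ B := by
    rw [hB, Real.one_le_sqrt]
    exact one_le_pow₀ hq
  have hdg : (0 : ℝ) ≤ dg S := by positivity
  have hδ0 := del0_pos (g i)
  have hδ1 := del1_nonneg (g i)
  have hδ : 0 < del0 (g i) + del1 (g i) := by linarith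
  set R : ℝ := ∏ j ∈ (Finset.univ : Finset ι).erase i, del0 (g j) with hR
  have hd0 : dl0 g = del0 (g i) * R := dl_eq g i
  have hd1 : dl1 g i = del1 (g i) * R := rfl
  set 𝒬 := (irrD k m).filter (fun Q => typ O i Q ∧ Q ∉ S ∧ ¬ Q ∣ dB g f) with h𝒬
  set bd : ℝ := ((C₂ + 1 + 3 * C : ℕ) : ℝ) * (1 + dg S) * B with hbd
  -- the number of primes of type one
  have hone : |(((irrD k m).filter fun Q => (¬ Q ∣ dB g f ∧ ∀ j, nr (O j) Q = 1) ∧
      Q ∉ S).card : ℝ) - dl0 g * P| ≤ (C₂ + 1) * (1 + dg S) * B := by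
    have h1 := hC₂ K L O θ hg ∅ (fun _ => True) (by simp) m hm
    replace h1 : |(((irrD k m).filter fun Q => ¬ Q ∣ dB g f ∧ ∀ j, nr (O j) Q = 1).card : ℝ) -
        dl0 g * (1 / 2) ^ (∅ : Finset k[X]).card * (Nat.card k : ℝ) ^ m / m| ≤
        C₂ * (1 + dg (∅ : Finset k[X])) * B := by
      refine le_of_eq_of_le ?_ h1
      congr 4
      ext Q
      simp
    have e2 : dl0 g * (1 / 2) ^ (∅ : Finset k[X]).card * (Nat.card k : ℝ) ^ m / m =
        dl0 g * P := by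
      rw [Finset.card_empty, pow_zero, mul_one, hP, mul_div_assoc]
    rw [e2] at h1
    have h2 := card_remove hm S ((irrD k m).filter fun Q => ¬ Q ∣ dB g f ∧ ∀ j, nr (O j) Q = 1)
      (Finset.filter_subset _ _)
    rw [Finset.filter_filter] at h2
    refine (abs_sub_le _ (((irrD k m).filter fun Q => ¬ Q ∣ dB g f ∧
      ∀ j, nr (O j) Q = 1).card : ℝ) _).trans ?_
    have h3 : (dg (∅ : Finset k[X]) : ℝ) = 0 := by simp [dg]
    rw [h3] at h1
    have h4 : (C₂ : ℝ) * (1 + 0) * B ≤ C₂ * (1 + dg S) * B := by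
      refine mul_le_mul_of_nonneg_right ?_ (by positivity)
      exact mul_le_mul_of_nonneg_left (by linarith) (by positivity)
    have h5 : (dg S : ℝ) ≤ (1 + dg S) * B := by nlinarith
    linarith [h1, h2, h4, h5]
  -- one choice of the local classes
  have hT : ∀ T ∈ S.powerset, |∑ Q ∈ 𝒬,
      (φ (fun j => ld (SelG (O j) K (f j) (θ j) (insert Q S)
          (Function.update (uT nrs T) Q 1))) +
        φ (fun j => ld (SelG (O j) K (f j) (θ j) (insert Q S)
          (Function.update (uT nrs T) Q (nrs Q))))) / 2 -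
      (dl0 g + dl1 g i) * P * MzJ (del1 (g i) / (del0 (g i) + del1 (g i))) i φ
        (fun j => ld (SelG (O j) K (f j) (θ j) S (uT nrs T)))| ≤ bd := by
    intro T _
    have huJ := goodJ hn hS T
    have hu := huJ i
    set u := uT nrs T with hudef
    set G := SelG (O i) K (f i) (θ i) S u with hG
    obtain ⟨hGm, hGs⟩ := (hGRP k K (L i) (O i) (g i) (N i) (r i) (f i) (θ i) (hF.fm i)
      (hg i)).2 S u hu
    have hsz : sz G ≠ 0 := (hREP k K (L i) (O i) (g i) (N i) (r i) (f i) (θ i) (hF.fm i)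
      (hg i)).2 S u hu hGm
    set dd : ι → ℕ := fun j => ld (SelG (O j) K (f j) (θ j) S u) with hdd
    set d := ld G with hd
    have hddi : dd i = d := rfl
    set ψ : ℕ → ℝ := fun x => φ (Function.update dd i x) with hψ
    have hψ1 : ∀ x, |ψ x| ≤ 1 := fun x => hφ _
    have hszd : sz G = 2 ^ d := hPOW (L i) G hGs hsz
    obtain ⟨hc2, hc3⟩ := hC S u hu m hm
    set n₁ : ℝ := (((irrD k m).filter fun Q => (¬ Q ∣ dB g f ∧ ∀ j, nr (O j) Q = 1) ∧
      Q ∉ S).card : ℝ) with hn₁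
    set n₂ : ℝ := (((irrD k m).filter fun Q => (¬ Q ∣ dB g f ∧ nr (O i) Q = 2 ∧
      ∀ j, j ≠ i → nr (O j) Q = 1) ∧ Q ∉ S).card : ℝ)
      with hn₂
    set a : ℝ := (((irrD k m).filter fun Q => ((¬ Q ∣ dB g f ∧ nr (O i) Q = 2 ∧
      ∀ j, j ≠ i → nr (O j) Q = 1) ∧ Q ∉ S) ∧
          ∀ α ∈ G, Tr (O i) Q (α : L i)).card : ℝ) with ha
    -- the values
    have hval : ∀ Q ∈ 𝒬, (φ (fun j => ld (SelG (O j) K (f j) (θ j) (insert Q S)
          (Function.update u Q 1))) +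
        φ (fun j => ld (SelG (O j) K (f j) (θ j) (insert Q S)
          (Function.update u Q (nrs Q))))) / 2 =
        if nr (O i) Q = 1 then ψ d else if (∀ α ∈ G, Tr (O i) Q (α : L i)) then ψ (d + 1)
          else ψ (d - 1) := by
      intro Q hQ
      rw [h𝒬, Finset.mem_filter, mem_irrD] at hQ
      obtain ⟨⟨hQm, hQi, -⟩, ⟨hQn, hQj⟩, hQS, hQd⟩ := hQ
      have hQdj : ∀ j, ¬ Q ∣ dsc (g j) (f j) := fun j h => hQd (h.trans (dsc_dvd g f j))
      obtain ⟨hnr1, -⟩ := hSTEP k K (L i) (O i) (g i) (N i) (r i) (f i) (θ i) (hF.fm i) (hg i)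
        S u hu hsz Q hQm hQi hQS
        (hQdj i) 1 (fun h => hQi.not_isUnit (isUnit_of_dvd_one h))
      have key : ∀ w : k[X], ¬ Q ∣ w →
          φ (fun j => ld (SelG (O j) K (f j) (θ j) (insert Q S) (Function.update u Q w))) =
          if nr (O i) Q = 1 then ψ d else if (∀ α ∈ G, Tr (O i) Q (α : L i)) then ψ (d + 1)
            else ψ (d - 1) := by
        intro w hw
        have hvec : (fun j => ld (SelG (O j) K (f j) (θ j) (insert Q S)
            (Function.update u Q w))) = Function.update dd i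
              (ld (SelG (O i) K (f i) (θ i) (insert Q S) (Function.update u Q w))) := by
          funext j
          by_cases hji : j = i
          · subst hji
            rw [Function.update_self]
          · rw [Function.update_of_ne hji]
            rw [(hEXS k K (L j) (O j) (g j) (N j) (r j) (f j) (θ j) (hF.fm j)
              (full_of hFull j) (hg j) S u (huJ j) Q hQm hQi hQS (hQdj j) w hw).1 (hQj j hji)]
        obtain ⟨x1, x2, x3⟩ := hEXS k K (L i) (O i) (g i) (N i) (r i) (f i) (θ i) (hF.fm i)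
          (full_of hFull i) (hg i) S u hu Q hQm hQi hQS (hQdj i) w hw
        have hu' := goodT_insert hu hQm hQi hQS (hQdj i) hw
        obtain ⟨hGm', hGs'⟩ := (hGRP k K (L i) (O i) (g i) (N i) (r i) (f i) (θ i) (hF.fm i)
          (hg i)).2 _ _ hu'
        have hsz' := (hREP k K (L i) (O i) (g i) (N i) (r i) (f i) (θ i) (hF.fm i)
          (hg i)).2 _ _ hu' hGm'
        have hszd' := hPOW (L i) _ hGs' hsz'
        rw [hvec]
        change ψ (ld (SelG (O i) K (f i) (θ i) (insert Q S) (Function.update u Q w))) = _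
        split_ifs with h1 h2
        · rw [x1 h1]
        · have h3 := x2 (by omega) h2
          rw [hszd', hszd, ← pow_succ'] at h3
          rw [Nat.pow_right_injective (le_refl 2) h3]
        · have h3 := x3 (by omega) h2
          rw [hszd', hszd, ← pow_succ'] at h3
          have h4 := Nat.pow_right_injective (le_refl 2) h3
          congr 1
          omega
      rw [key 1 (fun h => hQi.not_isUnit (isUnit_of_dvd_one h)), key (nrs Q) (nrs_ndvd hn hQi)]
      ring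
    have hsum : ∑ Q ∈ 𝒬, (φ (fun j => ld (SelG (O j) K (f j) (θ j) (insert Q S)
          (Function.update u Q 1))) +
        φ (fun j => ld (SelG (O j) K (f j) (θ j) (insert Q S)
          (Function.update u Q (nrs Q))))) / 2 =
        n₁ * ψ d + a * ψ (d + 1) + (n₂ - a) * ψ (d - 1) := by
      rw [Finset.sum_congr rfl hval, Finset.sum_ite, Finset.sum_ite, Finset.sum_const,
        Finset.sum_const, Finset.sum_const, nsmul_eq_mul, nsmul_eq_mul, nsmul_eq_mul]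
      have hnr : ∀ Q ∈ irrD k m, Q ∉ S → ¬ Q ∣ dB g f → 1 ≤ nr (O i) Q := by
        intro Q hQ hQS hQd
        rw [mem_irrD] at hQ
        exact (hSTEP k K (L i) (O i) (g i) (N i) (r i) (f i) (θ i) (hF.fm i) (hg i) S u hu hsz
          Q hQ.1 hQ.2.1 hQS
          (fun h => hQd (h.trans (dsc_dvd g f i))) 1
          (fun h => hQ.2.1.not_isUnit (isUnit_of_dvd_one h))).1
      have e1 : 𝒬.filter (fun Q => nr (O i) Q = 1) =
          (irrD k m).filter fun Q => (¬ Q ∣ dB g f ∧ ∀ j, nr (O j) Q = 1) ∧ Q ∉ S := by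
        rw [h𝒬, Finset.filter_filter]
        refine Finset.filter_congr fun Q _ => ?_
        constructor
        · rintro ⟨⟨⟨-, h1⟩, h2, h3⟩, h4⟩
          refine ⟨⟨h3, fun j => ?_⟩, h2⟩
          by_cases hji : j = i
          · rw [hji]; exact h4
          · exact h1 j hji
        · rintro ⟨⟨h3, h4⟩, h2⟩
          exact ⟨⟨⟨by rw [h4 i]; omega, fun j _ => h4 j⟩, h2, h3⟩, h4 i⟩
      have e2 : 𝒬.filter (fun Q => ¬ nr (O i) Q = 1) =
          (irrD k m).filter fun Q => (¬ Q ∣ dB g f ∧ nr (O i) Q = 2 ∧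
            ∀ j, j ≠ i → nr (O j) Q = 1) ∧ Q ∉ S := by
        rw [h𝒬, Finset.filter_filter]
        refine Finset.filter_congr fun Q hQ => ?_
        constructor
        · rintro ⟨⟨⟨h1, h1'⟩, h2, h3⟩, h4⟩
          have := hnr Q hQ h2 h3
          exact ⟨⟨h3, by omega, h1'⟩, h2⟩
        · rintro ⟨⟨h3, h4, h1'⟩, h2⟩; exact ⟨⟨⟨by omega, h1'⟩, h2, h3⟩, by omega⟩
      rw [e1, e2, Finset.filter_filter]
      have e3 := Finset.card_filter_add_card_filter_not
        (s := (irrD k m).filter fun Q => (¬ Q ∣ dB g f ∧ nr (O i) Q = 2 ∧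
            ∀ j, j ≠ i → nr (O j) Q = 1) ∧ Q ∉ S)
        (fun Q => ∀ α ∈ G, Tr (O i) Q (α : L i))
      rw [Finset.filter_filter] at e3
      have e4 : a + ((((irrD k m).filter fun Q => (¬ Q ∣ dB g f ∧ nr (O i) Q = 2 ∧
            ∀ j, j ≠ i → nr (O j) Q = 1) ∧ Q ∉ S).filter
          fun Q => ¬ ∀ α ∈ G, Tr (O i) Q (α : L i)).card : ℝ) = n₂ := by
        rw [ha, hn₂]
        exact_mod_cast e3
      rw [← e4]
      ring
    rw [hsum]
    have hMz : (dl0 g + dl1 g i) * P * MzJ (del1 (g i) / (del0 (g i) + del1 (g i))) i φ dd =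
        P * (dl0 g * ψ d + dl1 g i * ((1 / 2) ^ d * ψ (d + 1) +
          (1 - (1 / 2) ^ d) * ψ (d - 1))) := by
      unfold MzJ Mz Mk
      rw [hd0, hd1, hddi]
      change _ * P * (_ * ψ d + _ * (_ * ψ (d + 1) + _ * ψ (d - 1))) = _
      field_simp
      ring
    rw [hMz]
    have hM2 : dl1 g i * (Nat.card k : ℝ) ^ m / m = dl1 g i * P := by rw [hP, mul_div_assoc]
    have hszr : (1 / (sz G : ℝ)) = (1 / 2) ^ d := by
      rw [hszd]; push_cast; rw [one_div, one_div, inv_pow]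
    rw [hM2] at hc2 hc3
    rw [hszr] at hc3
    have e : n₁ * ψ d + a * ψ (d + 1) + (n₂ - a) * ψ (d - 1) -
        P * (dl0 g * ψ d + dl1 g i * ((1 / 2) ^ d * ψ (d + 1) +
          (1 - (1 / 2) ^ d) * ψ (d - 1))) =
        (n₁ - dl0 g * P) * ψ d + (a - dl1 g i * P * (1 / 2) ^ d) * (ψ (d + 1) - ψ (d - 1)) +
          (n₂ - dl1 g i * P) * ψ (d - 1) := by
      ring
    rw [e]
    have b1 : |(n₁ - dl0 g * P) * ψ d| ≤ (C₂ + 1) * (1 + dg S) * B := by
      rw [abs_mul]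
      calc _ ≤ |n₁ - dl0 g * P| * 1 := mul_le_mul_of_nonneg_left (hψ1 d) (abs_nonneg _)
        _ ≤ _ := by rw [mul_one]; exact hone
    have b2 : |(a - dl1 g i * P * (1 / 2) ^ d) * (ψ (d + 1) - ψ (d - 1))| ≤
        (C * (1 + dg S) * B) * 2 := by
      rw [abs_mul]
      refine mul_le_mul hc3 ?_ (abs_nonneg _) (by positivity)
      calc |ψ (d + 1) - ψ (d - 1)| ≤ |ψ (d + 1)| + |ψ (d - 1)| := abs_sub _ _
        _ ≤ 2 := by linarith [hψ1 (d + 1), hψ1 (d - 1)]
    have b3 : |(n₂ - dl1 g i * P) * ψ (d - 1)| ≤ C * (1 + dg S) * B := by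
      rw [abs_mul]
      calc _ ≤ |n₂ - dl1 g i * P| * 1 := mul_le_mul_of_nonneg_left (hψ1 _) (abs_nonneg _)
        _ ≤ _ := by rw [mul_one]; exact hc2
    calc _ ≤ |(n₁ - dl0 g * P) * ψ d| +
          |(a - dl1 g i * P * (1 / 2) ^ d) * (ψ (d + 1) - ψ (d - 1))| +
          |(n₂ - dl1 g i * P) * ψ (d - 1)| := abs_add_three _ _ _
      _ ≤ (C₂ + 1) * (1 + dg S) * B + (C * (1 + dg S) * B) * 2 + C * (1 + dg S) * B :=
          add_le_add (add_le_add b1 b2) b3
      _ = bd := by rw [hbd]; push_cast; ring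
  -- the average
  have hsumQ : ∑ Q ∈ 𝒬, avJ O K f θ nrs φ (insert Q S) = (1 / 2 : ℝ) ^ S.card *
      ∑ T ∈ S.powerset, ∑ Q ∈ 𝒬,
        (φ (fun j => ld (SelG (O j) K (f j) (θ j) (insert Q S)
          (Function.update (uT nrs T) Q 1))) +
        φ (fun j => ld (SelG (O j) K (f j) (θ j) (insert Q S)
          (Function.update (uT nrs T) Q (nrs Q))))) / 2 := by
    rw [Finset.sum_comm, Finset.mul_sum]
    refine Finset.sum_congr rfl fun Q hQ => ?_
    rw [h𝒬, Finset.mem_filter] at hQ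
    exact avJ_insert nrs φ hQ.2.2.1
  have hP2 : (dl0 g + dl1 g i) * (Nat.card k : ℝ) ^ m / m = (dl0 g + dl1 g i) * P := by
    rw [hP, mul_div_assoc]
  rw [hsumQ, hP2]
  have hav : (dl0 g + dl1 g i) * P *
      avJ O K f θ nrs (MzJ (del1 (g i) / (del0 (g i) + del1 (g i))) i φ) S =
      (1 / 2 : ℝ) ^ S.card * ∑ T ∈ S.powerset, (dl0 g + dl1 g i) * P *
        MzJ (del1 (g i) / (del0 (g i) + del1 (g i))) i φ
          (fun j => ld (SelG (O j) K (f j) (θ j) S (uT nrs T))) := by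
    rw [avJ, ← Finset.mul_sum]
    ring
  rw [hav, ← mul_sub, ← Finset.sum_sub_distrib, abs_mul, abs_of_nonneg (by positivity)]
  have hfin : |∑ T ∈ S.powerset, (∑ Q ∈ 𝒬,
      (φ (fun j => ld (SelG (O j) K (f j) (θ j) (insert Q S)
          (Function.update (uT nrs T) Q 1))) +
        φ (fun j => ld (SelG (O j) K (f j) (θ j) (insert Q S)
          (Function.update (uT nrs T) Q (nrs Q))))) / 2 -
      (dl0 g + dl1 g i) * P * MzJ (del1 (g i) / (del0 (g i) + del1 (g i))) i φ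
        (fun j => ld (SelG (O j) K (f j) (θ j) S (uT nrs T))))| ≤ 2 ^ S.card * bd := by
    refine (Finset.abs_sum_le_sum_abs _ _).trans ?_
    refine (Finset.sum_le_sum hT).trans ?_
    rw [Finset.sum_const, Finset.card_powerset, nsmul_eq_mul]
    push_cast
    exact le_refl _
  calc (1 / 2 : ℝ) ^ S.card * _ ≤ (1 / 2 : ℝ) ^ S.card * (2 ^ S.card * bd) :=
        mul_le_mul_of_nonneg_left hfin (by positivity)
    _ = bd := by
        rw [← mul_assoc, ← mul_pow]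
        norm_num

theorem T_JS1 (hKILL : P_JKILL2) (hLAST : P_JLAST2) (hEXS : P_EXS) (hPOW : P_POW)
    (hSTEP : P_STEP) (hREP : P_REP) (hGRP : P_GRP) : P_JS1 := by
  intro k _ _ ι _ g N r f hF hFull K _ _ _ L O _ _ _ _ _ _ _ _ _ _ _ θ hg nrs hn
  refine ⟨fun φ S hS Q hQm hQi hQS hQd hQn =>
    avJ_insert_one hEXS hF hFull hg hn φ hS hQm hQi hQS hQd hQn, ?_⟩
  choose C hC using stepJ hKILL hLAST hEXS hPOW hSTEP hREP hGRP k ι g N r f hF hFull K L O θ hg
    nrs hn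
  refine ⟨∑ i, C i, fun i φ hφ S hS m hm => (hC i φ hφ S hS m hm).trans ?_⟩
  have h1 : C i ≤ ∑ j, C j := Finset.single_le_sum (f := C) (fun _ _ => Nat.zero_le _)
    (Finset.mem_univ i)
  have h2 : (C i : ℝ) ≤ ((∑ j, C j : ℕ) : ℝ) := by exact_mod_cast h1
  refine mul_le_mul_of_nonneg_right ?_ (Real.sqrt_nonneg _)
  exact mul_le_mul_of_nonneg_right h2 (by positivity)

end Run7.h957.JP
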