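import Pool.Agent.Run7.h957.JP.JS1
import Pool.Agent.Run7.h908.PL.S0

/-! Piece JS0 of project JPL (helper784), adapted from S0 of helper908: a prime with `nr = 1` for all
curves makes the local classes uniform. -/

set_option autoImplicit false
set_option linter.all false

open Polynomial IsDedekindDomain
open scoped Classical

namespace Run7.h957.JP

open Pool.Agent.N874.PP (Ov Ev Sq1)
open Pool.Agent.N352.PJ (IsGen Crd LocIm SelZero Fam GoodR Ht dsc)
open Run7.h875.TS (chi cd IsPC GSq irrD dg NRs uT sqf prD sqL sz Tr mem_prD prD_mul mem_irrD prod_prD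
  mul_div_of_dvd mul_div_self' ndvd_div cls_iff sqr_mul eq_of_dvd)
open Run7.h784.TG Run7.h286.PL Run7.h784.JP
open Run7.h908.PL (p1 p2 p3 sq_mul_iff dg_prD selG_congr selG_cls)

/-- **JS0**. -/
theorem T_JS0 (hLast : P_JLAST2) (hCLS : P_CLSU) (hEXS : P_EXS) : P_JS0 := by
  intro k _ _ ι _ g N r f hF hFull K _ _ _ L O _ _ _ _ _ _ _ _ _ _ _ θ hgen nrs hnrs
  obtain ⟨C₀, hLast⟩ := hLast k ι g N r f hF hFull
  refine ⟨C₀, ?_⟩
  intro φ hφ D hD hsf hcop m hm
  set S : Finset k[X] := prD D with hSdef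
  have hD0 : D ≠ 0 := hD.ne_zero
  have hmem : ∀ P, P ∈ S ↔ P.Monic ∧ Irreducible P ∧ P ∣ D := fun P => mem_prD hD0
  have hSd : ∀ P ∈ S, P.Monic ∧ Irreducible P ∧ ¬ P ∣ dB g f := by
    intro P hP
    obtain ⟨h1, h2, h3⟩ := (hmem P).1 hP
    exact ⟨h1, h2, fun h => h2.not_isUnit (hcop.isUnit_of_dvd' h3 h)⟩
  have hSdj : ∀ j, ∀ P ∈ S, ¬ P ∣ dsc (g j) (f j) := fun j P hP h =>
    (hSd P hP).2.2 (h.trans (dsc_dvd g f j))
  have hnd : ∀ P ∈ S, ¬ P ∣ D / P := fun P hP => by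
    obtain ⟨h1, h2, h3⟩ := (hmem P).1 hP
    exact ndvd_div h2 hsf h3
  have hgT : ∀ (T : Finset k[X]) (j : ι), GoodT (g j) (f j) S (uT nrs T) :=
    fun T j => goodJ hnrs hSd T j
  set A : Finset k[X] := (irrD k m).filter (fun Q => (∀ j, nr (O j) Q = 1) ∧ ¬ Q ∣ D ∧
    ¬ Q ∣ dB g f) with hA
  have hmA : ∀ Q, Q ∈ A ↔ (Q.Monic ∧ Irreducible Q ∧ Q.natDegree = m) ∧ (∀ j, nr (O j) Q = 1) ∧
      ¬ Q ∣ D ∧ ¬ Q ∣ dB g f := by
    intro Q
    rw [hA, Finset.mem_filter, mem_irrD]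
  set τ : k[X] → Finset k[X] := fun Q => S.filter fun P => ¬ ∃ z : k[X], P ∣ z ^ 2 - (D / P) * Q with hτ
  have hτS : ∀ Q, τ Q ⊆ S := fun Q => Finset.filter_subset _ _
  have hPQ : ∀ Q ∈ A, ∀ P ∈ S, ¬ P ∣ Q := by
    intro Q hQ P hP h
    obtain ⟨⟨q1, q2, -⟩, -, q3, -⟩ := (hmA Q).1 hQ
    obtain ⟨h1, h2, h3⟩ := (hmem P).1 hP
    have := eq_of_dvd h1 h2 q1 q2 h
    exact q3 (this ▸ h3)
  have hval : ∀ Q ∈ A, (fun j => dimS (O j) K (f j) (θ j) (D * Q)) =
      fun j => ld (SelG (O j) K (f j) (θ j) S (uT nrs (τ Q))) := by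
    intro Q hQ
    funext j
    obtain ⟨⟨q1, q2, -⟩, q3, q4, q5⟩ := (hmA Q).1 hQ
    have hQS : Q ∉ S := fun h => q4 ((hmem Q).1 h).2.2
    have hgood : GoodT (g j) (f j) S (fun P => D / P * Q) := by
      refine ⟨fun P hP => (hSd P hP).1, fun P hP => (hSd P hP).2.1, fun P hP => hSdj j P hP,
        fun P hP h => ?_⟩
      rcases (hSd P hP).2.1.prime.dvd_or_dvd h with h1 | h1
      · exact hnd P hP h1
      · exact hPQ Q hQ P hP h1
    have e1 : dimS (O j) K (f j) (θ j) (D * Q) = ld (SelG (O j) K (f j) (θ j) (insert Q S)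
        (Function.update (fun P => D / P * Q) Q D)) := by
      unfold dimS
      rw [prD_mul hD0 q1 q2]
      congr 1
      refine selG_congr fun P hP => ?_
      rw [Finset.mem_insert] at hP
      by_cases hPQ' : P = Q
      · rw [hPQ', Function.update_self, mul_div_self' q2.ne_zero]
      · rw [Function.update_of_ne hPQ']
        have hPS := hP.resolve_left hPQ'
        obtain ⟨h1, h2, h3⟩ := (hmem P).1 hPS
        exact mul_div_of_dvd h2.ne_zero h3
    have q5j : ¬ Q ∣ dsc (g j) (f j) := fun h => q5 (h.trans (dsc_dvd g f j))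
    rw [e1, (hEXS k K (L j) (O j) (g j) (N j) (r j) (f j) (θ j) (hF.fm j) (full_of hFull j)
      (hgen j) S _ hgood Q q1 q2 hQS q5j D q4).1 (q3 j)]
    congr 1
    refine selG_cls hCLS (hF.fm j) (hgen j) hgood (hgT _ j) fun P hP => ?_
    unfold uT
    by_cases hPT : P ∈ τ Q
    · rw [if_pos hPT]
      rw [hτ, Finset.mem_filter] at hPT
      constructor
      · intro h; exact absurd h hPT.2
      · rintro ⟨z, hz⟩; exact absurd hz (hnrs P (hSd P hP).2.1 z)
    · rw [if_neg hPT]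
      rw [hτ, Finset.mem_filter, not_and, not_not] at hPT
      constructor
      · intro _; exact ⟨1, by simp⟩
      · intro _; exact hPT hP
  set ψ : Finset k[X] → ℝ := fun T =>
    φ (fun j => ld (SelG (O j) K (f j) (θ j) S (uT nrs T))) with hψ
  have hψ1 : ∀ T, |ψ T| ≤ 1 := fun T => hφ _
  have hsum : ∑ Q ∈ A, φ (fun j => dimS (O j) K (f j) (θ j) (D * Q)) =
      ∑ T ∈ S.powerset, ((A.filter fun Q => τ Q = T).card : ℝ) * ψ T := by
    rw [Finset.sum_congr rfl fun Q hQ => by rw [hval Q hQ],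
      ← Finset.sum_fiberwise_of_maps_to (g := τ) (t := S.powerset)
        (fun Q _ => Finset.mem_powerset.2 (hτS Q))]
    refine Finset.sum_congr rfl fun T _ => ?_
    have h1 : ∀ Q ∈ A.filter (fun Q => τ Q = T),
        φ (fun j => ld (SelG (O j) K (f j) (θ j) S (uT nrs (τ Q)))) = ψ T := by
      intro Q hQ
      rw [(Finset.mem_filter.1 hQ).2]
    rw [Finset.sum_congr rfl h1, Finset.sum_const, nsmul_eq_mul]
  have hcount : ∀ T ∈ S.powerset,
      |((A.filter fun Q => τ Q = T).card : ℝ) - dl0 g * (1 / 2) ^ S.card * (Nat.card k : ℝ) ^ m / m| ≤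
        C₀ * (1 + D.natDegree) * √((Nat.card k : ℝ) ^ m) := by
    intro T hT
    rw [Finset.mem_powerset] at hT
    have h1 := hLast K L O θ hgen S (fun P => (∃ z : k[X], P ∣ z ^ 2 - D / P) ↔ P ∉ T) hSd m hm
    rw [dg_prD hD hsf] at h1
    have h2 : (A.filter fun Q => τ Q = T) = (irrD k m).filter fun Q => ¬ Q ∣ dB g f ∧
        (∀ j, nr (O j) Q = 1) ∧ Q ∉ S ∧ ∀ P ∈ S, (∃ z : k[X], P ∣ z ^ 2 - Q) ↔
          ((∃ z : k[X], P ∣ z ^ 2 - D / P) ↔ P ∉ T) := by
      ext Q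
      rw [Finset.mem_filter, hmA, Finset.mem_filter, mem_irrD]
      constructor
      · rintro ⟨⟨q1, q2, q3, q4⟩, q5⟩
        refine ⟨q1, q4, q2, fun h => q3 ((hmem Q).1 h).2.2, fun P hP => ?_⟩
        have hQA : Q ∈ A := (hmA Q).2 ⟨q1, q2, q3, q4⟩
        have h3 := sq_mul_iff (hSd P hP).2.1 (hnd P hP) (hPQ Q hQA P hP)
        have h4 : P ∉ T ↔ ∃ z : k[X], P ∣ z ^ 2 - (D / P) * Q := by
          rw [← q5, hτ, Finset.mem_filter, not_and, not_not]
          exact ⟨fun h => h hP, fun h _ => h⟩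
        rw [h4, h3]
        exact p1 _ _
      · rintro ⟨q1, q4, q2, q3, q5⟩
        have q3' : ¬ Q ∣ D := fun h => q3 ((hmem Q).2 ⟨q1.1, q1.2.1, h⟩)
        have hQA : Q ∈ A := (hmA Q).2 ⟨q1, q2, q3', q4⟩
        refine ⟨⟨q1, q2, q3', q4⟩, ?_⟩
        rw [hτ]
        ext P
        rw [Finset.mem_filter]
        constructor
        · rintro ⟨hP, h⟩
          have h3 := sq_mul_iff (hSd P hP).2.1 (hnd P hP) (hPQ Q hQA P hP)
          rw [h3] at h
          exact p2 h (q5 P hP)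
        · intro hP
          have hPS := hT hP
          refine ⟨hPS, ?_⟩
          have h3 := sq_mul_iff (hSd P hPS).2.1 (hnd P hPS) (hPQ Q hQA P hPS)
          rw [h3]
          exact p3 hP (q5 P hPS)
    rw [h2]
    refine le_trans (le_of_eq ?_) h1
    congr!
  have hfin : |∑ Q ∈ A, φ (fun j => dimS (O j) K (f j) (θ j) (D * Q)) -
      dl0 g * (Nat.card k : ℝ) ^ m / m * avJ O K f θ nrs φ S| ≤
      C₀ * 2 ^ S.card * (1 + D.natDegree) * √((Nat.card k : ℝ) ^ m) := by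
    have e1 : dl0 g * (Nat.card k : ℝ) ^ m / m * avJ O K f θ nrs φ S =
        ∑ T ∈ S.powerset, (dl0 g * (1 / 2) ^ S.card * (Nat.card k : ℝ) ^ m / m) * ψ T := by
      unfold avJ
      rw [← Finset.mul_sum]
      ring
    rw [hsum, e1, ← Finset.sum_sub_distrib]
    refine (Finset.abs_sum_le_sum_abs _ _).trans ?_
    have h3 : ∀ T ∈ S.powerset, |((A.filter fun Q => τ Q = T).card : ℝ) * ψ T -
        (dl0 g * (1 / 2) ^ S.card * (Nat.card k : ℝ) ^ m / m) * ψ T| ≤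
        C₀ * (1 + D.natDegree) * √((Nat.card k : ℝ) ^ m) := by
      intro T hT
      rw [← sub_mul, abs_mul]
      calc _ ≤ (C₀ * (1 + D.natDegree) * √((Nat.card k : ℝ) ^ m)) * 1 :=
            mul_le_mul (hcount T hT) (hψ1 T) (abs_nonneg _) (by positivity)
        _ = _ := mul_one _
    refine (Finset.sum_le_sum h3).trans (le_of_eq ?_)
    rw [Finset.sum_const, Finset.card_powerset, nsmul_eq_mul]
    push_cast
    ring
  refine le_trans (le_of_eq ?_) hfin
  congr!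

end Run7.h957.JP
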